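import Mathlib
import Pool.Agent.H69.SemiZariskiDefs
import Pool.Agent.H69.Omega1Group

/-!
MP_b73301_gt, Q1 disproved: there is a group with finite double centralizers in which the set
`S_{≤ n}` of the elements with at most `n` elements in the double centralizer is not closed in the
semi-Zariski topology, for every `n ≥ 2`.
-/

namespace Pool.Agent.Results.MP_b73301_gt.NotClosed

open Pool.Agent.H69.SemiZariski

theorem result : ∃ (S : Type) (_ : Group S), FiniteDoubleCentralizers S ∧
    ∀ n : ℕ, 2 ≤ n → ¬ @IsClosed S (semiZariski S) (boundedDC S n) :=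
  ⟨Pool.Agent.H69.Omega1Group.Grp, inferInstance, Pool.Agent.H69.Omega1Group.fdc_Grp,
    fun _ hn => Pool.Agent.H69.Omega1Group.not_closed_Grp hn⟩

end Pool.Agent.Results.MP_b73301_gt.NotClosed
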