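import Mathlib
import Pool.Agent.H69.SemiZariskiDefs
import Pool.Agent.H69.Omega1Group

/-!
MP_b73301_gt, Q2 disproved: there is a group with finite double centralizers in which, for every
`n ≥ 2`, the set `S_{≤ n}` of the elements with at most `n` elements in the double centralizer is
not a countable union of sets that are discrete in the semi-Zariski topology.
-/

namespace Pool.Agent.Results.MP_b73301_gt.NotSigmaDiscrete

open Pool.Agent.H69.SemiZariski

theorem result : ∃ (S : Type) (_ : Group S), FiniteDoubleCentralizers S ∧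
    ∀ n : ℕ, 2 ≤ n → ¬ ∃ D : ℕ → Set S, boundedDC S n = ⋃ k, D k ∧
      ∀ k, @IsDiscrete S (semiZariski S) (D k) :=
  ⟨Pool.Agent.H69.Omega1Group.Grp, inferInstance, Pool.Agent.H69.Omega1Group.fdc_Grp,
    fun _ hn => Pool.Agent.H69.Omega1Group.not_sigma_discrete_Grp hn⟩

end Pool.Agent.Results.MP_b73301_gt.NotSigmaDiscrete
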